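import Pool.Agent.Lib.MP_ed189b_nt.Main

/-!
# MP_ed189b_nt: the maxima of the error term over the blocks `[e^n, e^(n+1)]`

On the Riemann hypothesis the block maxima of `(ψ(x) - x)² / x` are `O(N³)` on average over
`N ≤ n < 2N`; the order `√x (log x)²` is reached in a bounded number of blocks of each dyadic range,
and an order above `√x (log x)^(3/2)` only on a set of blocks of density zero.
-/

set_option autoImplicit false

namespace Pool.Agent.Results.MP_ed189b_nt.BlockMaxima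

open Filter Topology ERT

theorem result (h : RiemannHypothesis) :
    (∃ C : ℝ, ∀ (N : ℕ) (x : ℕ → ℝ), 1 ≤ N →
      (∀ n ∈ Finset.Ico N (2 * N), Real.exp n ≤ x n ∧ x n ≤ Real.exp (n + 1)) →
        ∑ n ∈ Finset.Ico N (2 * N), (Chebyshev.psi (x n) - x n) ^ 2 / x n ≤ C * (N : ℝ) ^ 4) ∧
    (∀ c₀ : ℝ, 0 < c₀ → ∃ C : ℝ, ∀ N : ℕ, 1 ≤ N →
      ((Set.Ico N (2 * N) ∩ Exc (fun x => c₀ * Fabc 2 0 0 x)).ncard : ℝ) ≤ C) ∧
    ∀ a b c c₀ : ℝ, 0 < c₀ → (3 / 2 < a ∨ (a = 3 / 2 ∧ (0 < b ∨ (b = 0 ∧ 0 < c)))) →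
      Tendsto (fun M : ℕ => ((Set.Icc 1 M ∩ Exc (fun x => c₀ * Fabc a b c x)).ncard : ℝ) / M)
        atTop (𝓝 0) :=
  main h

end Pool.Agent.Results.MP_ed189b_nt.BlockMaxima
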